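import Pool.Agent.TH198.AT.Stmts

/-!
# AT-SEMI: semigroup property of the heat extension
-/

set_option autoImplicit false

open MeasureTheory ProbabilityTheory Set

namespace Pool.TH637.AT

open Pool.TH198.AT

/-- scaling of the standard Gaussian expectation -/
theorem E1_scale {g : ℝ → ℝ} (hg : StronglyMeasurable g) (u : NNReal) :
    E1 (fun y => g (√(u : ℝ) * y)) = ∫ t, g t ∂(gaussianReal 0 u) := by
  unfold E1
  have h1 : (gaussianReal 0 1).map (√(u : ℝ) * ·) = gaussianReal 0 u := by
    rw [gaussianReal_map_const_mul]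
    congr 1
    · ring
    · ext
      simp
  rw [← h1, integral_map (by fun_prop) hg.aestronglyMeasurable]

/-- functions of linear growth are integrable -/
theorem integrable_lin {f : ℝ → ℝ} {C : ℝ} (hf : Continuous f) (hC : ∀ x, |f x| ≤ C * (1 + |x|))
    (x : ℝ) (u : NNReal) : Integrable (fun r => f (x + r)) (gaussianReal 0 u) := by
  have h1 : Integrable (fun r : ℝ => r) (gaussianReal 0 u) :=
    (memLp_id_gaussianReal 1).integrable (by simp)
  have hC0 : 0 ≤ C := by
    have := (abs_nonneg _).trans (hC 0)
    simpa using this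
  have h2 : Integrable (fun r : ℝ => C * (1 + |x|) + C * |r|) (gaussianReal 0 u) :=
    (integrable_const _).add (h1.abs.const_mul C)
  refine h2.mono' (by fun_prop) (ae_of_all _ fun r => ?_)
  rw [Real.norm_eq_abs]
  refine (hC _).trans ?_
  have h3 := abs_add_le x r
  nlinarith

/-- AT-SEMI -/
theorem t_SEMI : St_SEMI := by
  intro f C hf hC x u w hu hw
  lift u to NNReal using hu
  lift w to NNReal using hw
  have e1 : ∀ z : ℝ, E1 (fun y => f (x + √(u : ℝ) * z + √(w : ℝ) * y)) =
      ∫ t, f (x + (√(u : ℝ) * z + t)) ∂(gaussianReal 0 w) := by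
    intro z
    have := E1_scale (g := fun t => f (x + (√(u : ℝ) * z + t)))
      (by fun_prop : Continuous fun t => f (x + (√(u : ℝ) * z + t))).stronglyMeasurable w
    rw [← this]
    congr 1
    funext y
    congr 1
    ring
  simp_rw [e1]
  have hm : StronglyMeasurable (fun s : ℝ => ∫ t, f (x + (s + t)) ∂(gaussianReal 0 w)) := by
    apply StronglyMeasurable.integral_prod_right
    exact (by fun_prop : Continuous fun p : ℝ × ℝ => f (x + (p.1 + p.2))).stronglyMeasurable
  rw [E1_scale (g := fun s : ℝ => ∫ t, f (x + (s + t)) ∂(gaussianReal 0 w)) hm u]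
  have hi : Integrable (fun r => f (x + r)) ((gaussianReal 0 u).conv (gaussianReal 0 w)) := by
    rw [gaussianReal_conv_gaussianReal]
    simpa using integrable_lin hf hC x (u + w)
  have e2 := integral_conv hi
  rw [← e2, gaussianReal_conv_gaussianReal]
  have e3 := E1_scale (g := fun r => f (x + r))
    (by fun_prop : Continuous fun r => f (x + r)).stronglyMeasurable (u + w)
  rw [show ((u : ℝ) + (w : ℝ)) = ((u + w : NNReal) : ℝ) by push_cast; ring, e3]
  simp

end Pool.TH637.AT
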